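import Pool.Agent.H72.ADL.FinAbL
import Pool.Agent.H11.TSL.Gpl

/-!
# LOG VERSION of the points theorem over `ℚ(μ_∞)`: the theorem

`log_ab`: for every `k ≥ 1` there are `C` and `c > 0` with `c ≤ [L(γ):L] (log (3 [L(γ):L]))^C ∏ h(γ_i)` for all multiplicatively independent `γ_1, …, γ_k`, `L = ℚ(μ_∞)`.
-/

set_option autoImplicit false
set_option linter.unusedSectionVars false

open NumberField

namespace Pool.Agent.H72.ADL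

open Pool.Agent.H11.TH Pool.Agent.H11.TS Pool.Agent.H72.AD Pool.Agent.H28.PT4

variable {Ω : Type} [Field Ω] [CharZero Ω] [IsAlgClosed Ω] [IsGalois ℚ Ω]

theorem hgp_ab : HGpAb Ω := by
  intro k hk
  obtain ⟨a₀, a₁, h⟩ := Pool.Agent.H11.TSL.gp_log k hk
  refine ⟨a₀, a₁, fun C c hc => ?_⟩
  obtain ⟨K₁, hK₁⟩ := h C c hc
  refine ⟨K₁, fun N 𝓛 hP hlow => ?_⟩
  exact hK₁ ℚ Ω (⊥ : Subgroup Ωˣ) N hP.1.symm.le 𝓛 hlow

theorem log_abH (k : ℕ) (hk : 1 ≤ k) : ∃ (C : ℕ) (c : ℝ), 0 < c ∧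
    LogH (Ab Ω) (⊥ : Subgroup Ωˣ) k 1 C c := fin_abH hgp_ab k hk

theorem log_ab (k : ℕ) (hk : 1 ≤ k) : ∃ (C : ℕ) (c : ℝ), 0 < c ∧
    LogB (Ab Ω) (⊥ : Subgroup Ωˣ) k 1 C c := fin_abB hgp_ab k hk

end Pool.Agent.H72.ADL
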