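import Pool.Agent.H33.TH2.Chb

/-!
# LOG VERSION of the points theorem: choice of the primes

`choose_primesL`: as `choose_primes` of `Pool/Agent/H33/PT/Chs.lean`, for all `Z ≥ (32 (4 e + N + 1025))^4`.
PROOF. `r = ⌊√Z⌋`, `q = ⌊√r⌋`, `Z < (q + 1)^4 ≤ 2^(4 q)`, so `log_2 Z + 1 ≤ 4 q`, and `32 (e (log_2 Z + 1) + N + 1025) ≤ 32 (4 e + N + 1025) q ≤ q^2 ≤ r`.
-/

set_option autoImplicit false

namespace Pool.Agent.H72.ADL

theorem choose_primesL (e N Z : ℕ) (hZ : (32 * (4 * e + N + 1025)) ^ 4 ≤ Z) (B : Finset ℕ)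
    (hB : 2 ^ B.card ≤ Z ^ e) :
    ∃ LL : Finset ℕ, LL.card = N ∧ ∀ l ∈ LL, l.Prime ∧ l ∉ B ∧ Z ≤ l ^ 3 ∧ l ≤ Z := by
  classical
  have hZ0 : Z ≠ 0 := by
    have : 0 < (32 * (4 * e + N + 1025)) ^ 4 := by positivity
    omega
  obtain ⟨L, hL⟩ : ∃ L : ℕ, L = Nat.log 2 Z := ⟨_, rfl⟩
  have hL1 : 2 ^ L ≤ Z := by rw [hL]; exact Nat.pow_log_le_self 2 hZ0
  have hL2 : Z < 2 ^ (L + 1) := by rw [hL]; exact Nat.lt_pow_succ_log_self (by norm_num) Z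
  obtain ⟨r, hr⟩ : ∃ r : ℕ, r = Nat.sqrt Z := ⟨_, rfl⟩
  have hr1 : r * r ≤ Z := by rw [hr]; exact Nat.sqrt_le Z
  have hr2 : Z < (r + 1) * (r + 1) := by rw [hr]; exact Nat.lt_succ_sqrt Z
  obtain ⟨q, hq⟩ : ∃ q : ℕ, q = Nat.sqrt r := ⟨_, rfl⟩
  have hq1 : q * q ≤ r := by rw [hq]; exact Nat.sqrt_le r
  have hq2 : r < (q + 1) * (q + 1) := by rw [hq]; exact Nat.lt_succ_sqrt r
  -- the lower bound of `q`
  have hq3 : 32 * (4 * e + N + 1025) ≤ q := by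
    have h1 : (32 * (4 * e + N + 1025)) ^ 2 ≤ r := by
      rw [hr, Nat.le_sqrt]
      calc (32 * (4 * e + N + 1025)) ^ 2 * (32 * (4 * e + N + 1025)) ^ 2 =
          (32 * (4 * e + N + 1025)) ^ 4 := by ring
        _ ≤ Z := hZ
    rw [hq, Nat.le_sqrt]
    calc 32 * (4 * e + N + 1025) * (32 * (4 * e + N + 1025)) = (32 * (4 * e + N + 1025)) ^ 2 := by ring
      _ ≤ r := h1
  have hLq : L + 1 ≤ 4 * q := by
    have h1 : r + 1 ≤ (q + 1) * (q + 1) := hq2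
    have h2 : (r + 1) * (r + 1) ≤ ((q + 1) * (q + 1)) * ((q + 1) * (q + 1)) := Nat.mul_le_mul h1 h1
    have h3 : q + 1 ≤ 2 ^ q := Nat.lt_two_pow_self
    have h4 : ((q + 1) * (q + 1)) * ((q + 1) * (q + 1)) ≤ (2 ^ q * 2 ^ q) * (2 ^ q * 2 ^ q) :=
      Nat.mul_le_mul (Nat.mul_le_mul h3 h3) (Nat.mul_le_mul h3 h3)
    have h5 : (2 ^ q * 2 ^ q) * (2 ^ q * 2 ^ q) = 2 ^ (4 * q) := by
      rw [← pow_add, ← pow_add]
      congr 1
      ring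
    have h6 : 2 ^ L < 2 ^ (4 * q) := by
      rw [← h5]
      exact lt_of_lt_of_le (hL1.trans_lt hr2) (h2.trans h4)
    exact (Nat.pow_lt_pow_iff_right (by norm_num)).1 h6
  have hB1 : B.card ≤ e * (L + 1) := by
    have h1 : 2 ^ B.card ≤ 2 ^ ((L + 1) * e) := by
      rw [pow_mul]
      exact hB.trans (Nat.pow_le_pow_left hL2.le e)
    have h2 := (Nat.pow_le_pow_iff_right (by norm_num)).1 h1
    rwa [mul_comm] at h2
  have hbig : 32 * (e * (L + 1) + N + 1025) ≤ r := by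
    have hq4 : 1 ≤ q := by omega
    have h2 : e * (L + 1) ≤ e * (4 * q) := Nat.mul_le_mul_left e hLq
    have h3 : (N + 1025) * 1 ≤ (N + 1025) * q := Nat.mul_le_mul_left _ hq4
    have h4 : 32 * (4 * e + N + 1025) * q ≤ q * q := Nat.mul_le_mul_right q hq3
    have h5 : 32 * (4 * e + N + 1025) * q = 32 * (e * (4 * q) + (N + 1025) * q) := by ring
    linarith
  obtain ⟨s, hs⟩ : ∃ s : ℕ, s = r / 32 := ⟨_, rfl⟩
  have hs1 : 32 * s ≤ r := by omega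
  have hs2 : r < 32 * (s + 1) := by omega
  have hs3 : e * (L + 1) + N + 1025 ≤ s := by omega
  obtain ⟨A, hA, hA2⟩ := Pool.Agent.H33.TH2.many s s (by omega)
  have hcard : N ≤ (A \ B).card := by
    have := Finset.le_card_sdiff B A
    omega
  obtain ⟨LL, hLL, hLL2⟩ := Finset.exists_subset_card_eq hcard
  refine ⟨LL, hLL2, fun l hl => ?_⟩
  have hl' := Finset.mem_sdiff.1 (hLL hl)
  obtain ⟨h1, h2, h3⟩ := hA2 l hl'.1
  refine ⟨h1, hl'.2, ?_, ?_⟩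
  · have h4 : r + 1 ≤ 32 * l := by omega
    have h5 : (r + 1) * (r + 1) ≤ (32 * l) * (32 * l) := Nat.mul_le_mul h4 h4
    have h6 : 1024 ≤ l := by omega
    calc Z ≤ (32 * l) * (32 * l) := (hr2.trans_le h5).le
      _ = 1024 * (l * l) := by ring
      _ ≤ l * (l * l) := Nat.mul_le_mul_right _ h6
      _ = l ^ 3 := by ring
  · calc l ≤ 64 * (s + s) ^ 2 := h3
      _ = 256 * (s * s) := by ring
      _ ≤ (32 * s) * (32 * s) := by nlinarith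
      _ ≤ r * r := Nat.mul_le_mul hs1 hs1
      _ ≤ Z := hr1

end Pool.Agent.H72.ADL
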