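import Pool.Agent.H72.ADL.NumL
import Pool.Agent.H72.ADL.ChsL
import Pool.Agent.H72.AD.HdDg
import Pool.Agent.H72.AD.RegA
import Pool.Agent.H72.AD.FldD
import Pool.Agent.H72.AD.DesAll
import Pool.Agent.H72.AD.DesHd
import Pool.Agent.H33.PT.Gp
import Pool.Agent.H33.PT.Exq

/-!
# LOG VERSION of the points theorem over `ℚ(μ_∞)`: the inequality for one tuple

`core_ab0`: as `pu_ab` (`Pool/Agent/H72/AD/MaiAd.lean`), for all `Z ≥ (K (e + 1))^K` with one constant `K` for all `e`, and with the independence of the monomials of small degree (the conclusion of `gp`) as a hypothesis.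
-/

set_option autoImplicit false
set_option linter.unusedSectionVars false

open NumberField

namespace Pool.Agent.H72.ADL

open Pool.Agent.H11.TH Pool.Agent.H11.TS Pool.Agent.H33.PT Pool.Agent.H72.AD

variable {Ω : Type} [Field Ω] [CharZero Ω] [IsAlgClosed Ω] [IsGalois ℚ Ω]

private theorem ex_M (n D w : ℕ) (hn : 1 ≤ n) (hw : 1 ≤ w) :
    ∃ M : ℕ, M ^ n * w ≤ D ∧ D < (M + 1) ^ n * w := by
  classical
  have hex : ∃ m : ℕ, D < (m + 1) ^ n * w := by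
    refine ⟨D, ?_⟩
    calc D < D + 1 := Nat.lt_succ_self _
      _ = (D + 1) ^ 1 * 1 := by ring
      _ ≤ (D + 1) ^ n * w := Nat.mul_le_mul (Nat.pow_le_pow_right (Nat.succ_pos _) hn) hw
  refine ⟨Nat.find hex, ?_, Nat.find_spec hex⟩
  rcases Nat.eq_zero_or_pos (Nat.find hex) with h | h
  · rw [h, zero_pow (by omega), zero_mul]
    exact Nat.zero_le _
  · have h1 := Nat.find_min hex (Nat.sub_lt h one_pos)
    have h2 : Nat.find hex - 1 + 1 = Nat.find hex := by omega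
    rw [h2] at h1
    omega

theorem core_ab0 (n c₁ : ℕ) (hn : 1 ≤ n) : ∃ K : ℕ, 1 ≤ K ∧ ∀ e Z : ℕ, (K * (e + 1)) ^ K ≤ Z →
    ∀ γ : Fin n → Ωˣ, IndM (⊥ : Subgroup Ωˣ) γ → degP (Ab Ω) γ ≤ Z ^ e → ∀ h : ℝ,
    (∀ i, absLogHeight₁ (γ i : Ω) ≤ h) →
    ((Z : ℝ) ^ (n * (2 * c₁ + 2 * n + 5)) * ((degP (Ab Ω) γ : ℝ) * h ^ n) ≤ 1 → ∀ M₁ : ℕ,
      M₁ ^ n * Z ^ c₁ ≤ degP (Ab Ω) γ → ∀ z : Tor Ω n, IsT z →
      LinearIndependent (Ab Ω) fun a : Fin n → Fin (M₁ + 1) =>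
        mo (fun i => (((z * γ) i : Ωˣ) : Ω)) (fun i => (a i : ℕ))) →
    1 < (Z : ℝ) ^ (n * (2 * c₁ + 2 * n + 5)) * ((degP (Ab Ω) γ : ℝ) * h ^ n) := by
  classical
  obtain ⟨K₁, hK₁, hnumL⟩ := num_adL n c₁ hn
  have p1 : PolB fun e => (K₁ * (e + 1)) ^ K₁ := ⟨K₁, hK₁, fun _ => le_rfl⟩
  have p2 : PolB fun e => (32 * (4 * e + (K₁ * (e + 1)) ^ K₁ + 1025)) ^ 4 :=
    PolB.pow ((polB_const 32).mul ((((polB_const 4).mul polB_id).add p1).add (polB_const 1025))) 4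
  obtain ⟨K, hK1, hK⟩ := p2.add (p1.add (polB_const 1))
  refine ⟨K, hK1, fun e Z hZ γ hind hdeg h hh hgp => ?_⟩
  obtain ⟨Td, T, R, hTd, hT, hR, hnum⟩ := hnumL e
  obtain ⟨x, hx⟩ : ∃ x : ℕ, x = (K₁ * (e + 1)) ^ K₁ := ⟨_, rfl⟩
  have hK' := (hK e).trans hZ
  simp only at hK'
  rw [← hx] at hK' hR
  have hZx : x + 1 ≤ Z := by omega
  have hZR : (32 * (4 * e + R + 1025)) ^ 4 ≤ Z := by
    refine le_trans (Nat.pow_le_pow_left ?_ 4) ((Nat.le_add_right _ (x + 1)).trans hK')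
    refine Nat.mul_le_mul_left _ ?_
    omega
  have hchs := choose_primesL e R Z hZR
  by_contra hcon
  push Not at hcon
  have hcon0 := hcon
  have hZ1 : 1 ≤ Z := by omega
  have hZr : (1 : ℝ) ≤ Z := by exact_mod_cast hZ1
  obtain ⟨i₀⟩ : Nonempty (Fin n) := ⟨⟨0, hn⟩⟩
  have hh0 : 0 ≤ h := (Pool.Agent.H72.PB.ht_nonneg (γ i₀ : Ω)).trans (hh i₀)
  obtain ⟨D, hD⟩ : ∃ D : ℕ, D = degP (Ab Ω) γ := ⟨_, rfl⟩
  rw [← hD] at hcon hdeg
  have hDA : dgT (HA Ω) γ = D := by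
    rw [hD]
    exact (degP_dg (Ab Ω) γ).symm
  have hD1 : 1 ≤ D := by
    rw [← hDA]
    exact dg_pos _ _
  obtain ⟨M₁, hM1, hM2⟩ := ex_M n D (Z ^ c₁) hn (Nat.one_le_pow _ _ hZ1)
  have hMD : M₁ ^ n ≤ D := le_trans (Nat.le_mul_of_pos_right _ (Nat.pow_pos hZ1)) hM1
  obtain ⟨N, hN⟩ : ∃ N : ℕ, N = 2 * (Z ^ n * Z ^ (c₁ + 1)) ^ 2 * max 1 M₁ := ⟨_, rfl⟩
  obtain ⟨J, hJ⟩ : ∃ J : ℕ, J = 2 * Td ^ (n + 1) := ⟨_, rfl⟩
  have hJ1 : 1 ≤ J := by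
    rw [hJ]
    have := Nat.pow_pos (n := n + 1) hTd
    omega
  obtain ⟨hA, hB⟩ := hnum Z (by rw [← hx]; omega) D M₁ h hD1 hdeg hMD hh0 hcon N J hN hJ
  have hn1 : (0 : ℝ) ≤ n := Nat.cast_nonneg _
  -- step 1
  have hdz : ∀ z : Tor Ω n, IsT z → dgT (HA Ω) (z * γ) = D := fun z hz => by
    rw [dg_mul (HA Ω) z γ (fun σ hσ => tors_fix' z hz σ hσ), hDA]
  have hli : ∀ z : Tor Ω n, IsT z → LinearIndependent (Ab Ω) fun a : Fin n → Fin (M₁ + 1) =>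
      mo (fun i => (((z * γ) i : Ωˣ) : Ω)) (fun i => (a i : ℕ)) :=
    fun z hz => hgp hcon0 M₁ (by rw [← hD]; exact hM1) z hz
  have hhtz : ∀ z : Tor Ω n, IsT z → ht (z * γ) ≤ n * h := by
    intro z hz
    unfold ht crd
    calc ∑ l, absLogHeight₁ (((z * γ) l : Ωˣ) : Ω) ≤ ∑ _l : Fin n, h := by
          refine Finset.sum_le_sum fun l _ => ?_
          rw [ht_tw γ z hz l]
          exact hh l
      _ = n * h := by
          rw [Finset.sum_const, Finset.card_univ, Fintype.card_fin, nsmul_eq_mul]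
  -- step 2
  have hpw : ∀ (x : Tor Ω n) (l : ℕ), (fun i => (((x ^ l) i : Ωˣ) : Ω)) = fun i => (x i : Ω) ^ l := by
    intro x l
    funext i
    rw [Pi.pow_apply, Units.val_pow_eq_pow_val]
  obtain ⟨B, hBd⟩ : ∃ B : Finset ℕ, B = (Finset.range (Z + 1)).filter fun l => l.Prime ∧
      IntermediateField.adjoin (Ab Ω) (Set.range fun i => (γ i : Ω) ^ l) ≠
      IntermediateField.adjoin (Ab Ω) (Set.range fun i => (γ i : Ω)) := ⟨_, rfl⟩
  have hBm : ∀ l, l ∈ B ↔ l < Z + 1 ∧ l.Prime ∧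
      IntermediateField.adjoin (Ab Ω) (Set.range fun i => (γ i : Ω) ^ l) ≠
      IntermediateField.adjoin (Ab Ω) (Set.range fun i => (γ i : Ω)) := by
    intro l
    rw [hBd, Finset.mem_filter, Finset.mem_range]
  have hB2 : 2 ^ B.card ≤ Z ^ e := by
    refine le_trans ?_ hdeg
    rw [hD]
    exact exc_deg (Ab Ω) γ B (fun l hl => ((hBm l).1 hl).2.1) (fun l hl => ((hBm l).1 hl).2.2)
  obtain ⟨P, hPc, hP⟩ := hchs B hB2
  have h1 : ∀ l ∈ P, dgT (HA Ω) (γ ^ l) = dgT (HA Ω) γ := by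
    intro l hl
    obtain ⟨hp, hlB, -, hlZ⟩ := hP l hl
    have h2 : IntermediateField.adjoin (Ab Ω) (Set.range fun i => (γ i : Ω) ^ l) =
        IntermediateField.adjoin (Ab Ω) (Set.range fun i => (γ i : Ω)) := by
      by_contra hne
      exact hlB ((hBm l).2 ⟨by omega, hp, hne⟩)
    have h3 : degP (Ab Ω) (γ ^ l) = degP (Ab Ω) γ := by
      unfold degP
      rw [hpw γ l, h2]
    have h4 := degP_dg (Ab Ω) (γ ^ l)
    have h5 := degP_dg (Ab Ω) γ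
    rw [h3, h5] at h4
    exact h4.symm
  -- step 3
  have h2 : ∀ l ∈ P, ∀ N₁ : ℕ, 1 ≤ N₁ → l ∣ N₁ → ∀ z : Tor Ω n, IsT z →
      dgT (HN Ω N₁) (z * γ) = dgT (HA Ω) γ →
      dgT (HN Ω (N₁ / l)) ((z * γ) ^ l) ≤ J * dgT (HA Ω) γ := by
    intro l hl N₁ hN₁ hlN z hz hzN
    obtain ⟨hp, hlB, hl3, hlZ⟩ := hP l hl
    obtain ⟨h2l, hJl, hln⟩ := hA l hl3 hlZ
    have e1 := reg_cy (z * γ) M₁ Z c₁ l N₁ hp hlZ hN₁ hlN (hli z hz) (by rw [hdz z hz]; exact hM2.le)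
      (by rw [hdz z hz, hzN, hDA])
    rw [← hN] at e1
    have e2 := hd_box_mono (Cy Ω (N₁ / l)) ((z * γ) ^ l) (Nat.le_mul_of_pos_left N hTd)
    have e3 := desc_hd N₁ l hN₁ hp (by omega) hlN (z * γ) (n * h) (hhtz z hz) Td N hTd hln
    have e4 := hd_le_dg (Cy Ω N₁) (z * γ) (bx n N)
    have e5 : dgT (Cy Ω N₁).fixingSubgroup (z * γ) = dgT (HA Ω) γ := hzN
    rw [← e1, hJ]
    refine e2.trans (e3.trans ?_)
    rw [e5] at e4
    exact Nat.mul_le_mul_left _ e4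
  -- step 4
  obtain ⟨z, N₀, V, hz, hN₀, hV, horb, hram⟩ := desc_all γ J hJ1 P (fun l hl => by
    obtain ⟨hp, -, hl3, hlZ⟩ := hP l hl
    exact ⟨hp, (hA l hl3 hlZ).2.1⟩) h1 h2
  have hlog : 0 ≤ Real.log Z := Real.log_nonneg hZr
  have hpos : 0 < absLogHeight₁ (((z * γ) i₀ : Ωˣ) : Ω) := by
    rw [ht_tw γ z hz i₀]
    exact ind_pos γ hind i₀
  have hfin := ineq_Om (N := N) (L := Z) (J := J) (T := T) (D := D) (z * γ) (hdz z hz) i₀ hpos N₀ hN₀ V hV horb hT P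
    (fun l hl => ⟨(hP l hl).1, (hP l hl).2.2.2⟩) (Real.log Z / 3) (by positivity) (fun l hl => by
      obtain ⟨hp, -, hl3, -⟩ := hP l hl
      have h3 : (Z : ℝ) ≤ (l : ℝ) ^ 3 := by exact_mod_cast hl3
      have h4 := Real.log_le_log (by linarith) h3
      rw [Real.log_pow] at h4
      push_cast at h4
      linarith) hram (fun l hl => by
      obtain ⟨hp, -, -, hlZ⟩ := hP l hl
      have h3 : dgT (HA Ω) ((z * γ) ^ l) = D := by
        obtain ⟨N', hN', hzN'⟩ := hz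
        rw [mul_pow, dg_mul (HA Ω) (z ^ l) (γ ^ l) (fun σ hσ => tors_fix' (z ^ l)
          ⟨N', hN', by rw [← pow_mul, mul_comm, pow_mul, hzN', one_pow]⟩ σ hσ), h1 l hl, hDA]
      refine ⟨h3, ?_⟩
      have h4 := reg_ab (z * γ) M₁ Z c₁ l hp.one_lt.le hlZ (hli z hz) (by rw [hdz z hz]; exact hM2.le)
      rw [← hN, h3] at h4
      exact h4) (n * h) (hhtz z hz)
  rw [hPc] at hfin
  exact absurd hfin (not_le.2 hB)

end Pool.Agent.H72.ADL
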