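import Pool.Agent.H72.ADL.CoAbL
import Pool.Agent.H28.PT4.FinL

/-!
# LOG VERSION of the points theorem over `ℚ(μ_∞)` in all dimensions

`core_abL`: the inequality for one tuple, from `GpL` (the log version of `gp`). PROOF. `c₁ := a₁`, `C := a₀ + k (2 a₁ + 2 k + 5)`, `K` from `core_ab0`, `K₀ := 3 K + K₁ + 3`, `e := ⌈log (3 D)⌉`: `e + 1 ≤ 3 log (3 D)`, `D ≤ 3^e ≤ Z^e`. If `Z^C (D h^k) ≤ 1`, then `GpL` for `z γ`, `z` torsion, gives the hypothesis of `core_ab0`, a contradiction.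
`fin_abH`, `fin_abB`: strong induction on `k`, as `fin_L` (`Pool/Agent/H28/PT4/FinL.lean`).
-/

set_option autoImplicit false
set_option linter.unusedSectionVars false

open NumberField

namespace Pool.Agent.H72.ADL

open Pool.Agent.H11.TH Pool.Agent.H11.TS Pool.Agent.H33.PT Pool.Agent.H72.AD Pool.Agent.H28.PT4

variable {Ω : Type} [Field Ω] [CharZero Ω] [IsAlgClosed Ω] [IsGalois ℚ Ω]

theorem core_abL (k : ℕ) (hk : 1 ≤ k) (a₀ a₁ : ℕ) : ∃ C : ℕ, ∀ K₁ : ℕ, ∃ K₀ : ℕ,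
    GpL k (Ab Ω) (⊥ : Subgroup Ωˣ) 1 a₀ a₁ K₁ →
    ∀ γ : Fin k → Ωˣ, IndM (⊥ : Subgroup Ωˣ) γ →
    ∀ Z : ℕ, (K₀ * Real.log (3 * (1 : ℕ) * degP (Ab Ω) γ)) ^ K₀ ≤ Z →
    ∀ h : ℝ, (∀ i, absLogHeight₁ (γ i : Ω) ≤ h) →
    1 < (Z : ℝ) ^ C * ((degP (Ab Ω) γ : ℝ) * h ^ k) := by
  classical
  obtain ⟨K, hK1, hcore⟩ := core_ab0 (Ω := Ω) k a₁ hk
  refine ⟨a₀ + k * (2 * a₁ + 2 * k + 5), fun K₁ => ⟨3 * K + K₁ + 3, fun hG γ hγ Z hZ h hh => ?_⟩⟩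
  by_contra hcon
  push Not at hcon
  obtain ⟨K₀, hK₀⟩ : ∃ K₀ : ℕ, K₀ = 3 * K + K₁ + 3 := ⟨_, rfl⟩
  rw [← hK₀] at hZ
  obtain ⟨D, hD⟩ : ∃ D : ℕ, D = degP (Ab Ω) γ := ⟨_, rfl⟩
  have hDA : Pool.Agent.H72.AD.dgT (HA Ω) γ = D := by
    rw [hD]
    exact (degP_dg (Ab Ω) γ).symm
  have hD1 : 1 ≤ D := by
    rw [← hDA]
    exact dg_pos _ _
  have hDr : (1 : ℝ) ≤ D := by exact_mod_cast hD1
  rw [← hD] at hZ hcon
  obtain ⟨l, hl⟩ : ∃ l : ℝ, l = Real.log (3 * (1 : ℕ) * D) := ⟨_, rfl⟩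
  have hl1 : 1 ≤ l := by
    rw [hl, Real.le_log_iff_exp_le (by positivity)]
    have h1 := Real.exp_one_lt_d9
    push_cast
    linarith
  rw [← hl] at hZ
  have hKl : (1 : ℝ) ≤ K₀ * l := by
    have h1 : (1 : ℝ) ≤ K₀ := by exact_mod_cast (show 1 ≤ K₀ by omega)
    exact one_le_mul_of_one_le_of_one_le h1 hl1
  have hpow : ∀ (x : ℝ) (m : ℕ), 0 ≤ x → x ≤ K₀ * l → m ≤ K₀ → x ^ m ≤ (Z : ℝ) := fun x m hx0 hx hm =>
    ((pow_le_pow_left₀ hx0 hx m).trans (pow_le_pow_right₀ hKl hm)).trans hZ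
  have hZ3 : 3 ≤ Z := by
    have h1 := hpow 3 1 (by norm_num) (by
      have h2 : (3 : ℝ) ≤ K₀ := by exact_mod_cast (show 3 ≤ K₀ by omega)
      calc (3 : ℝ) ≤ K₀ := h2
        _ ≤ K₀ * l := le_mul_of_one_le_right (by linarith) hl1) (by omega)
    rw [pow_one] at h1
    exact_mod_cast h1
  have hZr : (1 : ℝ) ≤ Z := by exact_mod_cast (show 1 ≤ Z by omega)
  obtain ⟨e, he⟩ : ∃ e : ℕ, e = ⌈l⌉₊ := ⟨_, rfl⟩
  have he1 : (e : ℝ) ≤ l + 1 := by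
    rw [he]
    exact (Nat.ceil_lt_add_one (by linarith)).le
  have he2 : l ≤ e := by
    rw [he]
    exact Nat.le_ceil _
  have hKe : (K * (e + 1)) ^ K ≤ Z := by
    have h1 := hpow (K * (e + 1)) K (by positivity) (by
      have h2 : (3 * K : ℝ) ≤ K₀ := by exact_mod_cast (show 3 * K ≤ K₀ by omega)
      have hK0 : (0 : ℝ) ≤ K := Nat.cast_nonneg _
      calc (K : ℝ) * (e + 1) ≤ K * (3 * l) := mul_le_mul_of_nonneg_left (by linarith) hK0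
        _ = 3 * K * l := by ring
        _ ≤ K₀ * l := mul_le_mul_of_nonneg_right h2 (by linarith)) (by omega)
    exact_mod_cast h1
  have hDe : D ≤ Z ^ e := by
    have h1 : (D : ℝ) ≤ (Z : ℝ) ^ e := by
      have h2 : (D : ℝ) ≤ Real.exp l := by
        rw [hl, Real.exp_log (by positivity)]
        push_cast
        linarith
      have h3 : Real.exp l ≤ Real.exp e := Real.exp_le_exp.2 he2
      have h4 : Real.exp e = Real.exp 1 ^ e := by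
        rw [← Real.exp_nat_mul, mul_one]
      have h5 : Real.exp 1 ≤ Z := by
        have h6 := Real.exp_one_lt_d9
        have h7 : (3 : ℝ) ≤ Z := by exact_mod_cast hZ3
        linarith
      calc (D : ℝ) ≤ Real.exp 1 ^ e := by
            rw [← h4]
            exact h2.trans h3
        _ ≤ (Z : ℝ) ^ e := pow_le_pow_left₀ (Real.exp_pos _).le h5 e
    exact_mod_cast h1
  have hh0 : 0 ≤ h := (Pool.Agent.H72.PB.ht_nonneg (γ ⟨0, hk⟩ : Ω)).trans (hh _)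
  have hX0 : 0 ≤ (D : ℝ) * h ^ k := by positivity
  have hle : ∀ m : ℕ, m ≤ a₀ + k * (2 * a₁ + 2 * k + 5) →
      (Z : ℝ) ^ m * ((D : ℝ) * h ^ k) ≤ 1 := fun m hm =>
    (mul_le_mul_of_nonneg_right (pow_le_pow_right₀ hZr hm) hX0).trans hcon
  have hfin := hcore e Z hKe γ hγ (by rw [← hD]; exact hDe) h hh (fun _ M₁ hM₁ z hz => by
    have e1 : degP (Ab Ω) (z * γ) = D := by
      rw [degP_dg (Ab Ω) (z * γ)]
      exact (dg_mul (HA Ω) z γ (fun σ hσ => tors_fix' z hz σ hσ)).trans hDA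
    have h1 := hG (z * γ) (ind_tw γ z hz hγ) Z (by
      rw [e1, ← hl]
      exact hpow (K₁ * l) K₁ (by positivity) (by
        have h2 : (K₁ : ℝ) ≤ K₀ := by exact_mod_cast (show K₁ ≤ K₀ by omega)
        exact mul_le_mul_of_nonneg_right h2 (by linarith)) (by omega)) h (fun i => by
      rw [ht_tw γ z hz i]
      exact hh i) (by rw [e1]; exact hle a₀ (by omega)) M₁ (by rw [e1, hD]; exact hM₁)
    exact h1)
  rw [← hD] at hfin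
  exact absurd (hle _ (by omega)) (not_le.2 hfin)

/-- the log version of `gp` over `ℚ(μ_∞)` -/
def HGpAb (Ω : Type) [Field Ω] [CharZero Ω] [IsAlgClosed Ω] [IsGalois ℚ Ω] : Prop :=
  HGp (K := ℚ) (Ω := Ω) (⊥ : Subgroup Ωˣ) fun (N : ℕ) (𝓛 : IntermediateField ℚ Ω) => N = 1 ∧ 𝓛 = Ab Ω

theorem fin_abH (hGp : HGpAb Ω) : ∀ k : ℕ, 1 ≤ k → ∃ (C : ℕ) (c : ℝ), 0 < c ∧
    LogH (Ab Ω) (⊥ : Subgroup Ωˣ) k 1 C c := by
  classical
  intro k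
  induction k using Nat.strong_induction_on with
  | _ k ih =>
    intro hk
    have hlow : ∀ j : ℕ, ∃ (C : ℕ) (c : ℝ), 0 < c ∧ (1 ≤ j → j < k →
        LogB (Ab Ω) (⊥ : Subgroup Ωˣ) j 1 C c) := by
      intro j
      by_cases hj : 1 ≤ j ∧ j < k
      · obtain ⟨C₁, c₁, hc₁, h₁⟩ := ih 1 (by omega) le_rfl
        obtain ⟨C₂, c₂, hc₂, h₂⟩ := ih j hj.2 hj.1
        obtain ⟨C₃, c₃, hc₃, h₃⟩ := root_trickL j hj.1 (max C₁ C₂) (min c₁ c₂) (lt_min hc₁ hc₂)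
        refine ⟨C₃, c₃, hc₃, fun _ _ => ?_⟩
        exact h₃ ℚ Ω (Ab Ω) ⊥ 1 le_rfl
          (logH_mono le_rfl le_rfl (le_max_left _ _) (min_le_left _ _) h₁)
          (logH_mono hj.1 le_rfl (le_max_right _ _) (min_le_right _ _) h₂)
      · exact ⟨0, 1, one_pos, fun h1 h2 => absurd ⟨h1, h2⟩ hj⟩
    choose Cf cf hcf hf using hlow
    obtain ⟨C, hC⟩ : ∃ C : ℕ, ∀ j < k, Cf j ≤ C :=
      ⟨(Finset.range k).sup Cf, fun j hj => Finset.le_sup (Finset.mem_range.2 hj)⟩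
    obtain ⟨c, hc, hcle⟩ : ∃ c : ℝ, 0 < c ∧ ∀ j < k, c ≤ cf j := by
      obtain ⟨k₀, -, hmin⟩ := Finset.exists_min_image (Finset.range (k + 1)) cf
        ⟨0, Finset.mem_range.2 (Nat.succ_pos k)⟩
      exact ⟨cf k₀, hcf k₀, fun j hj => hmin j (Finset.mem_range.2 (by omega))⟩
    obtain ⟨a₀, a₁, hG⟩ := hGp k hk
    obtain ⟨K₁, hK₁⟩ := hG C c hc
    obtain ⟨C', hC'⟩ := core_abL (Ω := Ω) k hk a₀ a₁
    obtain ⟨K₀, hK₀⟩ := hC' K₁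
    obtain ⟨c₂, hc₂, hnum⟩ := num_cnv k C' K₀ hk
    refine ⟨K₀ * C', c₂, hc₂, ?_⟩
    intro γ hγ h hh
    have hgp : GpL k (Ab Ω) (⊥ : Subgroup Ωˣ) 1 a₀ a₁ K₁ := hK₁ 1 (Ab Ω) ⟨rfl, rfl⟩ fun j hj hjk =>
      logB_mono le_rfl (hC j hjk) (hcle j hjk) (hf j hj hjk)
    have hD1 : 1 ≤ degP (Ab Ω) γ := by
      rw [degP_dg (Ab Ω) γ]
      exact dg_pos _ _
    have hh0 : 0 ≤ h := (Pool.Agent.H72.PB.ht_nonneg _).trans (hh ⟨0, hk⟩)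
    exact hnum 1 (degP (Ab Ω) γ) le_rfl hD1 h hh0 fun Z hZ => hK₀ hgp γ hγ Z hZ h hh

/-- the points theorem over `ℚ(μ_∞)` with logarithms, product form -/
theorem fin_abB (hGp : HGpAb Ω) (k : ℕ) (hk : 1 ≤ k) : ∃ (C : ℕ) (c : ℝ), 0 < c ∧
    LogB (Ab Ω) (⊥ : Subgroup Ωˣ) k 1 C c := by
  obtain ⟨C₁, c₁, hc₁, h₁⟩ := fin_abH (Ω := Ω) hGp 1 le_rfl
  obtain ⟨C₂, c₂, hc₂, h₂⟩ := fin_abH (Ω := Ω) hGp k hk
  obtain ⟨C₃, c₃, hc₃, h₃⟩ := root_trickL k hk (max C₁ C₂) (min c₁ c₂) (lt_min hc₁ hc₂)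
  exact ⟨C₃, c₃, hc₃, h₃ ℚ Ω (Ab Ω) ⊥ 1 le_rfl
    (logH_mono le_rfl le_rfl (le_max_left _ _) (min_le_left _ _) h₁)
    (logH_mono hk le_rfl (le_max_right _ _) (min_le_right _ _) h₂)⟩

end Pool.Agent.H72.ADL
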