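import Mathlib

/-!
# LOG VERSION of the points theorem over `ℚ(μ_∞)`: the parameters are polynomials in `e + 1`

`num_adX`: the inequalities of `Pool/Agent/H72/AD/NumAd.lean` with explicit parameters.
`PolB f`: `f e ≤ (K (e + 1))^K` for a constant `K`; closed under sums, products and powers.
`num_adL`: the parameters for `Z ≥ (K (e + 1))^K`.
-/

set_option autoImplicit false

namespace Pool.Agent.H72.ADL

private theorem log_fac (M B : ℕ) (L A : ℝ) (hM : 1 ≤ M) (hMB : M ≤ B)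
    (hL : Real.log (B : ℝ) ≤ A * L) : Real.log ((M.factorial : ℕ) : ℝ) ≤ M * (A * L) := by
  have h0 : (0 : ℝ) < (M : ℝ) := by exact_mod_cast hM
  have h1 : (0 : ℝ) < ((M.factorial : ℕ) : ℝ) := by exact_mod_cast M.factorial_pos
  calc Real.log ((M.factorial : ℕ) : ℝ) ≤ Real.log ((M : ℝ) ^ M) :=
        Real.log_le_log h1 (by exact_mod_cast Nat.factorial_le_pow M)
    _ = (M : ℝ) * Real.log M := Real.log_pow _ _
    _ ≤ _ := by
        refine mul_le_mul_of_nonneg_left ?_ h0.le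
        exact (Real.log_le_log h0 (by exact_mod_cast hMB)).trans hL

private theorem log_pw (M Z A : ℕ) (hM : 1 ≤ M) (h : M ≤ Z ^ A) :
    Real.log (M : ℝ) ≤ (A : ℝ) * Real.log Z := by
  have h0 : (0 : ℝ) < (M : ℝ) := by exact_mod_cast hM
  calc Real.log (M : ℝ) ≤ Real.log ((Z : ℝ) ^ A) := Real.log_le_log h0 (by exact_mod_cast h)
    _ = _ := Real.log_pow _ _

/-- the final inequality of the real numbers -/
private theorem fin_ineq (J A T P Q R D L x y z u v : ℝ) (hJ : 1 ≤ J) (hA : 1 ≤ A) (hT : 1 ≤ T)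
    (_ : 0 ≤ P) (hD : 1 ≤ D) (hL : 1 ≤ L) (_ : 0 ≤ Q)
    (hTJ : T = 6 * (J * A)) (hR : R = 3 * P + Q + 8 * T + 3)
    (hx : x ≤ (R + P) * D * (A * L)) (hy : y ≤ Q * D * (A * L)) (hz : z ≤ D)
    (hu : u ≤ D * (A * L)) (hv : v ≤ D) :
    J * (x + y + z) + 4 * J * T * (u + v) < T * (R - P) * D * (L / 3) := by
  have hDL : 1 ≤ D * L := one_le_mul_of_one_le_of_one_le hD hL
  have hDL' : D ≤ D * L := le_mul_of_one_le_right (by linarith) hL
  have h1 : J * (x + y + z) ≤ J * ((R + P) * D * (A * L) + Q * D * (A * L) + D * L) :=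
    mul_le_mul_of_nonneg_left (by linarith) (by linarith)
  have hJT : 0 ≤ 4 * J * T := by positivity
  have h2 : 4 * J * T * (u + v) ≤ 4 * J * T * (D * (A * L) + D * L) :=
    mul_le_mul_of_nonneg_left (by linarith) hJT
  have h3 : T * (R - P) * D * (L / 3) = J * (2 * A * (R - P)) * (D * L) := by
    have h4 : T * (R - P) * D * (L / 3) = T / 3 * (R - P) * (D * L) := by ring
    rw [h4, hTJ]
    ring
  have h5 : A * (R + P) + A * Q + 1 + 4 * T * A + 4 * T < 2 * A * (R - P) := by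
    rw [hR]
    have h6 : T ≤ T * A := le_mul_of_one_le_right (by linarith) hA
    nlinarith
  have h7 : (A * (R + P) + A * Q + 1 + 4 * T * A + 4 * T) * (J * (D * L)) <
      2 * A * (R - P) * (J * (D * L)) :=
    mul_lt_mul_of_pos_right h5 (by positivity)
  rw [h3]
  have h8 : J * ((R + P) * D * (A * L) + Q * D * (A * L) + D * L) +
      4 * J * T * (D * (A * L) + D * L) =
      (A * (R + P) + A * Q + 1 + 4 * T * A + 4 * T) * (J * (D * L)) := by ring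
  have h9 : J * (2 * A * (R - P)) * (D * L) = 2 * A * (R - P) * (J * (D * L)) := by ring
  linarith

/-- the inequalities with explicit parameters -/
theorem num_adX (n e c₁ A Td J₀ T R K₀ : ℕ) (hn : 1 ≤ n) (hA : A = 2 * c₁ + 2 * n + e + 4)
    (hTd : Td = 6 * (n * A) + 7) (hJ₀ : J₀ = 2 * Td ^ (n + 1)) (hT : T = 6 * (J₀ * A))
    (hR : R = 3 * T ^ n + n * T * T ^ n + 8 * T + 3)
    (hK₀ : K₀ = (J₀ + 3) ^ 3 + (R + T ^ n) + 2 * Td * n + (R + T ^ n) * (3 * R + T) * n +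
      2 * (R + 1) * n + (2 * Td + 1) + (3 * R + 1) + 3) : 1 ≤ Td ∧ 1 ≤ T ∧
    ∀ Z : ℕ, K₀ ≤ Z → ∀ (D M₁ : ℕ) (h : ℝ), 1 ≤ D → D ≤ Z ^ e → M₁ ^ n ≤ D → 0 ≤ h →
      (Z : ℝ) ^ (n * (2 * c₁ + 2 * n + 5)) * ((D : ℝ) * h ^ n) ≤ 1 → ∀ N J : ℕ,
      N = 2 * (Z ^ n * Z ^ (c₁ + 1)) ^ 2 * max 1 M₁ → J = 2 * Td ^ (n + 1) →
      (∀ l : ℕ, Z ≤ l ^ 3 → l ≤ Z → 2 < l ∧ J < l ∧
        2 * (Real.log (((Td * N + 1) ^ n : ℕ) : ℝ) + ((l * (Td * N) : ℕ) : ℝ) * (n * h)) <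
          Td * Real.log l) ∧
      J * (Real.log (((R + T ^ n) * D).factorial : ℕ) +
          n * T * (T ^ n * D) * Real.log ((R * (N + 1) + 1 : ℕ) : ℝ) +
          ((R : ℝ) + T ^ n) * D * ((Z * (R * (N + 1)) + T : ℕ) : ℝ) * (n * h)) +
        4 * J * T * (Real.log (D.factorial : ℕ) + ((R : ℝ) + 1) * (Z * N : ℕ) * (D * (n * h))) <
      (T : ℝ) * ((R : ℝ) - T ^ n) * D * (Real.log Z / 3) := by
  obtain ⟨K₁, hK₁⟩ : ∃ K₁ : ℕ, K₁ = (J₀ + 3) ^ 3 := ⟨_, rfl⟩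
  obtain ⟨K₂, hK₂⟩ : ∃ K₂ : ℕ, K₂ = R + T ^ n := ⟨_, rfl⟩
  obtain ⟨K₃, hK₃⟩ : ∃ K₃ : ℕ, K₃ = 2 * Td * n := ⟨_, rfl⟩
  obtain ⟨K₄, hK₄⟩ : ∃ K₄ : ℕ, K₄ = (R + T ^ n) * (3 * R + T) * n := ⟨_, rfl⟩
  obtain ⟨K₅, hK₅⟩ : ∃ K₅ : ℕ, K₅ = 2 * (R + 1) * n := ⟨_, rfl⟩
  have hA1 : 1 ≤ A := by omega
  have hTd1 : 1 ≤ Td := by omega
  have hJ1 : 1 ≤ J₀ := by
    have := Nat.one_le_pow (n + 1) _ hTd1
    omega
  have hT1 : 1 ≤ T := by
    have : 1 ≤ J₀ * A := Nat.mul_pos hJ1 hA1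
    omega
  rw [← hK₁, ← hK₂, ← hK₃] at hK₀
  rw [hK₂, ← hK₄, ← hK₅, ← hK₂] at hK₀
  refine ⟨hTd1, hT1, fun Z hZ D M₁ h hD1 hDe hMD hh0 hh N J hN hJ => ?_⟩
  rw [← hJ₀] at hJ
  subst hJ
  have hZ3 : 3 ≤ Z := by omega
  have hZ1 : 1 ≤ Z := by omega
  obtain ⟨m, hm⟩ : ∃ m, m = max 1 M₁ := ⟨_, rfl⟩
  have hm1 : 1 ≤ m := by
    rw [hm]
    exact le_max_left _ _
  have hmn : m ^ n ≤ D := by
    rcases le_total 1 M₁ with h1 | h1
    · rw [hm, max_eq_right h1]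
      exact hMD
    · rw [hm, max_eq_left h1, one_pow]
      exact hD1
  have hme : m ≤ Z ^ e := (Nat.le_self_pow (by omega) m).trans (hmn.trans hDe)
  obtain ⟨W, hW⟩ : ∃ W : ℕ, W = Z ^ (2 * n + 2 * c₁ + 2) := ⟨_, rfl⟩
  have hW1 : 1 ≤ W := by
    rw [hW]
    exact Nat.one_le_pow _ _ hZ1
  have hWm1 : 1 ≤ W * m := Nat.mul_pos hW1 hm1
  have hN0 : N = 2 * (W * m) := by
    rw [hN, hW, ← hm]
    ring
  -- `c W m ≤ Z ^ A` for `c ≤ Z`
  have hWZ : ∀ c : ℕ, c ≤ Z → c * (W * m) ≤ Z ^ A := by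
    intro c hc
    calc c * (W * m) ≤ Z * (W * Z ^ e) := Nat.mul_le_mul hc (Nat.mul_le_mul_left _ hme)
      _ = Z ^ (1 + (2 * n + 2 * c₁ + 2 + e)) := by
          rw [hW, ← pow_add]
          ring
      _ ≤ Z ^ A := Nat.pow_le_pow_right hZ1 (by omega)
  have b1 : Td * N + 1 ≤ Z ^ A := by
    refine le_trans ?_ (hWZ (2 * Td + 1) (by omega))
    have h1 : (2 * Td + 1) * (W * m) = Td * (2 * (W * m)) + W * m := by ring
    rw [hN0, h1]
    exact Nat.add_le_add_left hWm1 _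
  have b2 : R * (N + 1) + 1 ≤ Z ^ A := by
    refine le_trans ?_ (hWZ (3 * R + 1) (by omega))
    have h1 : (3 * R + 1) * (W * m) = R * (2 * (W * m) + W * m) + W * m := by ring
    rw [hN0, h1]
    exact Nat.add_le_add (Nat.mul_le_mul_left _ (Nat.add_le_add_left hWm1 _)) hWm1
  have b3 : (R + T ^ n) * D ≤ Z ^ A := by
    calc (R + T ^ n) * D ≤ Z * Z ^ e := Nat.mul_le_mul (by omega) hDe
      _ = Z ^ (e + 1) := by ring
      _ ≤ Z ^ A := Nat.pow_le_pow_right hZ1 (by omega)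
  have b4 : D ≤ Z ^ A := hDe.trans (Nat.pow_le_pow_right hZ1 (by omega))
  -- real numbers
  have hZr : (1 : ℝ) ≤ (Z : ℝ) := by exact_mod_cast hZ1
  have hZ0 : (0 : ℝ) < (Z : ℝ) := by linarith
  have hL1 : 1 ≤ Real.log Z := by
    rw [Real.le_log_iff_exp_le hZ0]
    have h1 := Real.exp_one_lt_d9
    have h2 : (3 : ℝ) ≤ (Z : ℝ) := by exact_mod_cast hZ3
    linarith
  have hnr : (1 : ℝ) ≤ (n : ℝ) := by exact_mod_cast hn
  have hDr : (1 : ℝ) ≤ (D : ℝ) := by exact_mod_cast hD1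
  have hmh0 : 0 ≤ (m : ℝ) * h := mul_nonneg (Nat.cast_nonneg _) hh0
  have hmh : (Z : ℝ) ^ (2 * c₁ + 2 * n + 5) * ((m : ℝ) * h) ≤ 1 := by
    have h1 : ((Z : ℝ) ^ (2 * c₁ + 2 * n + 5) * ((m : ℝ) * h)) ^ n ≤ 1 := by
      refine le_trans ?_ hh
      rw [mul_pow, ← pow_mul, mul_comm (2 * c₁ + 2 * n + 5) n, mul_pow]
      refine mul_le_mul_of_nonneg_left (mul_le_mul_of_nonneg_right ?_ (pow_nonneg hh0 _))
        (pow_nonneg hZ0.le _)
      exact_mod_cast hmn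
    exact (pow_le_one_iff_of_nonneg (mul_nonneg (pow_nonneg hZ0.le _) hmh0) (by omega)).1 h1
  -- `c Z W m h ≤ 1` for `c ≤ Z`
  have hsm : ∀ c : ℕ, c ≤ Z → (c : ℝ) * ((Z : ℝ) * W * (m * h)) ≤ 1 := by
    intro c hc
    calc (c : ℝ) * ((Z : ℝ) * W * (m * h)) ≤ (Z : ℝ) * ((Z : ℝ) * W * (m * h)) := by
          refine mul_le_mul_of_nonneg_right (by exact_mod_cast hc) ?_
          exact mul_nonneg (mul_nonneg hZ0.le (Nat.cast_nonneg _)) hmh0
      _ = (Z : ℝ) ^ (2 * n + 2 * c₁ + 4) * (m * h) := by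
          rw [hW]
          push_cast
          ring
      _ ≤ (Z : ℝ) ^ (2 * c₁ + 2 * n + 5) * (m * h) :=
          mul_le_mul_of_nonneg_right (pow_le_pow_right₀ hZr (by omega)) hmh0
      _ ≤ 1 := hmh
  have hnh : 0 ≤ (n : ℝ) * h := mul_nonneg (by linarith) hh0
  refine ⟨fun l hl3 hlZ => ?_, ?_⟩
  · have hlJ : J + 3 ≤ l := by
      by_contra hc
      have h1 : l ^ 3 ≤ (J + 2) ^ 3 := Nat.pow_le_pow_left (by omega) 3
      have h2 : (J + 2) ^ 3 < (J + 3) ^ 3 := Nat.pow_lt_pow_left (by omega) (by norm_num)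
      omega
    refine ⟨by omega, by omega, ?_⟩
    have h1 : Real.log Z / 3 ≤ Real.log l := by
      have h6 : (Z : ℝ) ≤ (l : ℝ) ^ 3 := by exact_mod_cast hl3
      have h7 := Real.log_le_log hZ0 h6
      rw [Real.log_pow] at h7
      push_cast at h7
      linarith
    have h2 : Real.log (((Td * N + 1) ^ n : ℕ) : ℝ) ≤ n * (A * Real.log Z) := by
      have h3 : Real.log (((Td * N + 1) ^ n : ℕ) : ℝ) = n * Real.log ((Td * N + 1 : ℕ) : ℝ) := by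
        rw [Nat.cast_pow, Real.log_pow]
      rw [h3]
      exact mul_le_mul_of_nonneg_left (log_pw _ _ _ (by omega) b1) (by linarith)
    have h3 : ((l * (Td * N) : ℕ) : ℝ) * (n * h) ≤ 1 := by
      calc ((l * (Td * N) : ℕ) : ℝ) * (n * h) ≤ ((Z * (Td * N) : ℕ) : ℝ) * (n * h) :=
            mul_le_mul_of_nonneg_right (by exact_mod_cast Nat.mul_le_mul_right _ hlZ) hnh
        _ = (K₃ : ℝ) * ((Z : ℝ) * W * (m * h)) := by
            rw [hK₃, hN0]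
            push_cast
            ring
        _ ≤ 1 := hsm K₃ (by omega)
    have h4 : (Td : ℝ) = 6 * (n * A) + 7 := by
      rw [hTd]
      push_cast
      ring
    have h5 : (Td : ℝ) * (Real.log Z / 3) ≤ Td * Real.log l :=
      mul_le_mul_of_nonneg_left h1 (Nat.cast_nonneg _)
    have h6 : (Td : ℝ) * (Real.log Z / 3) = 2 * (n * (A * Real.log Z)) + 7 / 3 * Real.log Z := by
      rw [h4]
      ring
    linarith
  · have hJr : (1 : ℝ) ≤ (J : ℝ) := by exact_mod_cast hJ1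
    have hAr : (1 : ℝ) ≤ (A : ℝ) := by exact_mod_cast hA1
    have hTr : (1 : ℝ) ≤ (T : ℝ) := by exact_mod_cast hT1
    have hP0 : (0 : ℝ) ≤ (T : ℝ) ^ n := pow_nonneg (by linarith) _
    have c1 : (T : ℝ) = 6 * (J * A) := by
      rw [hT]
      push_cast
      ring
    have c2 : (R : ℝ) = 3 * (T : ℝ) ^ n + (n * T * T ^ n) + 8 * T + 3 := by
      rw [hR]
      push_cast
      ring
    have hRT1 : 1 ≤ R + T ^ n := by omega
    have c3 : Real.log (((R + T ^ n) * D).factorial : ℕ) ≤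
        ((R : ℝ) + T ^ n) * D * (A * Real.log Z) := by
      have h1 := log_fac ((R + T ^ n) * D) (Z ^ A) (Real.log Z) A (Nat.mul_pos hRT1 hD1) b3
        (log_pw _ _ _ (Nat.one_le_pow _ _ hZ1) le_rfl)
      refine h1.trans (le_of_eq ?_)
      push_cast
      ring
    have c4 : n * T * (T ^ n * D) * Real.log ((R * (N + 1) + 1 : ℕ) : ℝ) ≤
        (n * T * T ^ n) * (D : ℝ) * (A * Real.log Z) := by
      have h1 := log_pw (R * (N + 1) + 1) Z A (by omega) b2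
      have h2 : (0 : ℝ) ≤ n * T * (T ^ n * D) := by positivity
      refine (mul_le_mul_of_nonneg_left h1 h2).trans (le_of_eq ?_)
      ring
    have c5 : ((R : ℝ) + T ^ n) * D * ((Z * (R * (N + 1)) + T : ℕ) : ℝ) * (n * h) ≤ D := by
      have h1 : Z * (R * (N + 1)) + T ≤ (3 * R + T) * (Z * (W * m)) := by
        have h2 : 1 ≤ Z * (W * m) := Nat.mul_pos hZ1 hWm1
        have h3 : Z * (R * (N + 1)) ≤ 3 * R * (Z * (W * m)) := by
          calc Z * (R * (N + 1)) ≤ Z * (R * (3 * (W * m))) := by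
                refine Nat.mul_le_mul_left _ (Nat.mul_le_mul_left _ ?_)
                omega
            _ = _ := by ring
        rw [Nat.add_mul]
        exact Nat.add_le_add h3 (Nat.le_mul_of_pos_right _ h2)
      have h2 : ((Z * (R * (N + 1)) + T : ℕ) : ℝ) ≤ (((3 * R + T) * (Z * (W * m)) : ℕ) : ℝ) := by
        exact_mod_cast h1
      have h3 : (0 : ℝ) ≤ ((R : ℝ) + T ^ n) * D := by positivity
      calc ((R : ℝ) + T ^ n) * D * ((Z * (R * (N + 1)) + T : ℕ) : ℝ) * (n * h)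
          ≤ ((R : ℝ) + T ^ n) * D * (((3 * R + T) * (Z * (W * m)) : ℕ) : ℝ) * (n * h) :=
            mul_le_mul_of_nonneg_right (mul_le_mul_of_nonneg_left h2 h3) hnh
        _ = (D : ℝ) * ((K₄ : ℝ) * ((Z : ℝ) * W * (m * h))) := by
            rw [hK₄]
            push_cast
            ring
        _ ≤ (D : ℝ) * 1 := mul_le_mul_of_nonneg_left (hsm K₄ (by omega)) (by linarith)
        _ = D := mul_one _
    have c6 : Real.log (D.factorial : ℕ) ≤ (D : ℝ) * (A * Real.log Z) :=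
      log_fac D (Z ^ A) (Real.log Z) A hD1 b4
        (log_pw _ _ _ (Nat.one_le_pow _ _ hZ1) le_rfl)
    have c7 : ((R : ℝ) + 1) * (Z * N : ℕ) * (D * (n * h)) ≤ D := by
      calc ((R : ℝ) + 1) * (Z * N : ℕ) * (D * (n * h))
          = (D : ℝ) * ((K₅ : ℝ) * ((Z : ℝ) * W * (m * h))) := by
            rw [hK₅, hN0]
            push_cast
            ring
        _ ≤ (D : ℝ) * 1 := mul_le_mul_of_nonneg_left (hsm K₅ (by omega)) (by linarith)
        _ = D := mul_one _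
    exact fin_ineq J A T ((T : ℝ) ^ n) (n * T * T ^ n) R D (Real.log Z) _ _ _ _ _ hJr hAr hTr hP0
      hDr hL1 (by positivity) c1 c2 c3 c4 c5 c6 c7

/-- `f` is bounded by a polynomial in `e + 1` -/
def PolB (f : ℕ → ℕ) : Prop := ∃ K : ℕ, 1 ≤ K ∧ ∀ e, f e ≤ (K * (e + 1)) ^ K

theorem polB_mono_K {K K' e : ℕ} (hK : 1 ≤ K) (h : K ≤ K') :
    (K * (e + 1)) ^ K ≤ (K' * (e + 1)) ^ K' := by
  have h1 : 1 ≤ K' * (e + 1) := Nat.mul_pos (by omega) (by omega)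
  exact (Nat.pow_le_pow_left (Nat.mul_le_mul_right _ h) K).trans (Nat.pow_le_pow_right h1 h)

theorem PolB.le {f g : ℕ → ℕ} (hg : PolB g) (h : ∀ e, f e ≤ g e) : PolB f := by
  obtain ⟨K, hK1, hK⟩ := hg
  exact ⟨K, hK1, fun e => (h e).trans (hK e)⟩

theorem polB_const (c : ℕ) : PolB fun _ => c := by
  refine ⟨c + 1, by omega, fun e => ?_⟩
  have h1 : 1 ≤ (c + 1) * (e + 1) := Nat.mul_pos (by omega) (by omega)
  calc c ≤ (c + 1) * 1 := by omega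
    _ ≤ (c + 1) * (e + 1) := Nat.mul_le_mul_left _ (by omega)
    _ = ((c + 1) * (e + 1)) ^ 1 := (pow_one _).symm
    _ ≤ _ := Nat.pow_le_pow_right h1 (by omega)

theorem polB_id : PolB fun e => e := ⟨1, le_rfl, fun e => by
  rw [one_mul, pow_one]
  exact Nat.le_succ e⟩

theorem PolB.mul {f g : ℕ → ℕ} (hf : PolB f) (hg : PolB g) : PolB fun e => f e * g e := by
  obtain ⟨K, hK1, hK⟩ := hf
  obtain ⟨K', hK1', hK'⟩ := hg
  refine ⟨K + K', by omega, fun e => ?_⟩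
  rw [pow_add]
  refine Nat.mul_le_mul ((hK e).trans ?_) ((hK' e).trans ?_)
  · exact Nat.pow_le_pow_left (Nat.mul_le_mul_right _ (by omega)) _
  · exact Nat.pow_le_pow_left (Nat.mul_le_mul_right _ (by omega)) _

theorem PolB.add {f g : ℕ → ℕ} (hf : PolB f) (hg : PolB g) : PolB fun e => f e + g e := by
  obtain ⟨K, hK1, hK⟩ := hf
  obtain ⟨K', hK1', hK'⟩ := hg
  refine ⟨K + K', by omega, fun e => ?_⟩
  have h1 := (hK e).trans (polB_mono_K (e := e) hK1 (show K ≤ K + K' - 1 by omega))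
  have h2 := (hK' e).trans (polB_mono_K (e := e) hK1' (show K' ≤ K + K' - 1 by omega))
  obtain ⟨M, hM⟩ : ∃ M, K + K' = M + 1 := ⟨K + K' - 1, by omega⟩
  rw [hM] at h1 h2 ⊢
  rw [Nat.add_sub_cancel] at h1 h2
  have hM1 : 1 ≤ M := by omega
  have h3 : (M * (e + 1)) ^ M ≤ ((M + 1) * (e + 1)) ^ M :=
    Nat.pow_le_pow_left (Nat.mul_le_mul_right _ (by omega)) _
  have h4 : 2 ≤ (M + 1) * (e + 1) := by
    calc 2 = 2 * 1 := rfl
      _ ≤ (M + 1) * (e + 1) := Nat.mul_le_mul (by omega) (by omega)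
  calc f e + g e ≤ ((M + 1) * (e + 1)) ^ M * 2 := by omega
    _ ≤ ((M + 1) * (e + 1)) ^ M * ((M + 1) * (e + 1)) := Nat.mul_le_mul_left _ h4
    _ = _ := (pow_succ _ _).symm

theorem PolB.pow {f : ℕ → ℕ} (hf : PolB f) (k : ℕ) : PolB fun e => f e ^ k := by
  induction k with
  | zero => exact (polB_const 1).le fun e => by simp
  | succ k ih => exact (ih.mul hf).le fun e => by simp [pow_succ]

/-- the parameters for `Z ≥ (K (e + 1))^K` -/
theorem num_adL (n c₁ : ℕ) (hn : 1 ≤ n) : ∃ K : ℕ, 1 ≤ K ∧ ∀ e : ℕ, ∃ Td T R : ℕ,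
    1 ≤ Td ∧ 1 ≤ T ∧ R ≤ (K * (e + 1)) ^ K ∧
    ∀ Z : ℕ, (K * (e + 1)) ^ K ≤ Z → ∀ (D M₁ : ℕ) (h : ℝ), 1 ≤ D → D ≤ Z ^ e → M₁ ^ n ≤ D →
      0 ≤ h → (Z : ℝ) ^ (n * (2 * c₁ + 2 * n + 5)) * ((D : ℝ) * h ^ n) ≤ 1 → ∀ N J : ℕ,
      N = 2 * (Z ^ n * Z ^ (c₁ + 1)) ^ 2 * max 1 M₁ → J = 2 * Td ^ (n + 1) →
      (∀ l : ℕ, Z ≤ l ^ 3 → l ≤ Z → 2 < l ∧ J < l ∧
        2 * (Real.log (((Td * N + 1) ^ n : ℕ) : ℝ) + ((l * (Td * N) : ℕ) : ℝ) * (n * h)) <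
          Td * Real.log l) ∧
      J * (Real.log (((R + T ^ n) * D).factorial : ℕ) +
          n * T * (T ^ n * D) * Real.log ((R * (N + 1) + 1 : ℕ) : ℝ) +
          ((R : ℝ) + T ^ n) * D * ((Z * (R * (N + 1)) + T : ℕ) : ℝ) * (n * h)) +
        4 * J * T * (Real.log (D.factorial : ℕ) + ((R : ℝ) + 1) * (Z * N : ℕ) * (D * (n * h))) <
      (T : ℝ) * ((R : ℝ) - T ^ n) * D * (Real.log Z / 3) := by
  obtain ⟨A, hA⟩ : ∃ A : ℕ → ℕ, ∀ e, A e = 2 * c₁ + 2 * n + e + 4 := ⟨_, fun _ => rfl⟩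
  obtain ⟨Td, hTd⟩ : ∃ Td : ℕ → ℕ, ∀ e, Td e = 6 * (n * A e) + 7 := ⟨_, fun _ => rfl⟩
  obtain ⟨J₀, hJ₀⟩ : ∃ J₀ : ℕ → ℕ, ∀ e, J₀ e = 2 * Td e ^ (n + 1) := ⟨_, fun _ => rfl⟩
  obtain ⟨T, hT⟩ : ∃ T : ℕ → ℕ, ∀ e, T e = 6 * (J₀ e * A e) := ⟨_, fun _ => rfl⟩
  obtain ⟨R, hR⟩ : ∃ R : ℕ → ℕ, ∀ e, R e = 3 * T e ^ n + n * T e * T e ^ n + 8 * T e + 3 :=
    ⟨_, fun _ => rfl⟩
  obtain ⟨K₀, hK₀⟩ : ∃ K₀ : ℕ → ℕ, ∀ e, K₀ e = (J₀ e + 3) ^ 3 + (R e + T e ^ n) + 2 * Td e * n +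
      (R e + T e ^ n) * (3 * R e + T e) * n + 2 * (R e + 1) * n + (2 * Td e + 1) + (3 * R e + 1) + 3 :=
    ⟨_, fun _ => rfl⟩
  have pA : PolB A := (((polB_const (2 * c₁ + 2 * n)).add polB_id).add (polB_const 4)).le
    fun e => (hA e).le
  have pTd : PolB Td := (((polB_const 6).mul ((polB_const n).mul pA)).add (polB_const 7)).le
    fun e => (hTd e).le
  have pJ : PolB J₀ := ((polB_const 2).mul (pTd.pow (n + 1))).le fun e => (hJ₀ e).le
  have pT : PolB T := ((polB_const 6).mul (pJ.mul pA)).le fun e => (hT e).le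
  have pTn : PolB fun e => T e ^ n := pT.pow n
  have pR : PolB R := (((((polB_const 3).mul pTn).add (((polB_const n).mul pT).mul pTn)).add
    ((polB_const 8).mul pT)).add (polB_const 3)).le fun e => (hR e).le
  have pK : PolB K₀ := ((((((((pJ.add (polB_const 3)).pow 3).add (pR.add pTn)).add
    (((polB_const 2).mul pTd).mul (polB_const n))).add
    (((pR.add pTn).mul (((polB_const 3).mul pR).add pT)).mul (polB_const n))).add
    (((polB_const 2).mul (pR.add (polB_const 1))).mul (polB_const n))).add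
    (((polB_const 2).mul pTd).add (polB_const 1))).add
    (((polB_const 3).mul pR).add (polB_const 1))).add (polB_const 3) |>.le fun e => (hK₀ e).le
  obtain ⟨K, hK1, hK⟩ := pR.add pK
  refine ⟨K, hK1, fun e => ?_⟩
  obtain ⟨h1, h2, h3⟩ := num_adX n e c₁ (A e) (Td e) (J₀ e) (T e) (R e) (K₀ e) hn (hA e) (hTd e)
    (hJ₀ e) (hT e) (hR e) (hK₀ e)
  have h4 := hK e
  refine ⟨Td e, T e, R e, h1, h2, by simp only at h4; omega, fun Z hZ => h3 Z ?_⟩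
  simp only at h4
  omega

end Pool.Agent.H72.ADL
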